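import Mathlib

/-!
Labelled vector addition systems with states, degrees of ambiguity, and a uniform
Dickson-type bound.
-/

namespace Pool.Agent.V11232.VA

/-- A `d`-dimensional VASS over the alphabet `A`. -/
structure VASS (A : Type) (d : ℕ) where
  Q : Type
  finQ : Finite Q
  T : Set (Q × A × (Fin d → ℤ) × Q)
  finT : T.Finite
  q0 : Q
  c0 : Fin d → ℕ
  F : Set Q

variable {A : Type} {d : ℕ}

/-- Transitions. -/
abbrev VASS.Tr (V : VASS A d) : Type := V.Q × A × (Fin d → ℤ) × V.Q

/-- Configurations. -/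
abbrev VASS.Cf (V : VASS A d) : Type := V.Q × (Fin d → ℕ)

/-- `V.Run c ts c'`: the transitions `ts` can be fired in turn from `c`, and lead to `c'`. -/
inductive VASS.Run (V : VASS A d) : V.Cf → List V.Tr → V.Cf → Prop
  | nil (c : V.Cf) : VASS.Run V c [] c
  | cons {q q' : V.Q} {a : A} {u : Fin d → ℤ} {v v' : Fin d → ℕ} {ts : List V.Tr} {c : V.Cf} :
      (q, a, u, q') ∈ V.T → (∀ i, (v' i : ℤ) = v i + u i) →
      VASS.Run V (q', v') ts c → VASS.Run V (q, v) ((q, a, u, q') :: ts) c

/-- The labels of a sequence of transitions. -/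
def lab {Q : Type} (ts : List (Q × A × (Fin d → ℤ) × Q)) : List A := ts.map (fun t => t.2.1)

/-- The set of accepting runs on a word. -/
def VASS.Acc (V : VASS A d) (w : List A) : Set (List V.Tr) :=
  {ts | ∃ q v, V.Run (V.q0, V.c0) ts (q, v) ∧ q ∈ V.F ∧ lab ts = w}

/-- The language of a VASS. -/
def VASS.lang (V : VASS A d) : Language A := {w | (V.Acc w).Nonempty}

/-- `k`-ambiguity: every word has at most `k` accepting runs. -/
def VASS.Ambig (V : VASS A d) (k : ℕ) : Prop := ∀ w, (V.Acc w).encard ≤ k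

/-- `L` is recognised by a `k`-ambiguous VASS of some dimension. -/
def Rec (k : ℕ) (L : Language A) : Prop := ∃ (d : ℕ) (V : VASS A d), V.Ambig k ∧ V.lang = L

variable {V : VASS A d}

theorem run_append {c c' c'' : V.Cf} {s t : List V.Tr} (h1 : V.Run c s c') (h2 : V.Run c' t c'') :
    V.Run c (s ++ t) c'' := by
  induction h1 with
  | nil c => exact h2
  | cons ht hv h ih => exact VASS.Run.cons ht hv (ih h2)

theorem run_split {c c'' : V.Cf} {s t : List V.Tr} (h : V.Run c (s ++ t) c'') :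
    ∃ c', V.Run c s c' ∧ V.Run c' t c'' := by
  induction s generalizing c with
  | nil => exact ⟨c, VASS.Run.nil c, h⟩
  | cons x s ih =>
    rw [List.cons_append] at h
    cases h with
    | cons ht hv h =>
      obtain ⟨c', h1, h2⟩ := ih h
      exact ⟨c', VASS.Run.cons ht hv h1, h2⟩

theorem run_det {c c1 c2 : V.Cf} {s : List V.Tr} (h1 : V.Run c s c1) (h2 : V.Run c s c2) :
    c1 = c2 := by
  induction h1 with
  | nil c => cases h2; rfl
  | cons ht hv h ih =>
    cases h2 with
    | cons ht' hv' h' =>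
      rename_i v1 v1' _ _ v2'
      have : v1' = v2' := by
        funext i
        have e1 := hv i
        have e2 := hv' i
        omega
      subst this
      exact ih h'

/-- Raising a configuration. -/
def up (c : V.Cf) (δ : Fin d → ℕ) : V.Cf := (c.1, c.2 + δ)

theorem run_up {c c' : V.Cf} {s : List V.Tr} (h : V.Run c s c') (δ : Fin d → ℕ) :
    V.Run (up c δ) s (up c' δ) := by
  induction h with
  | nil c => exact VASS.Run.nil _
  | cons ht hv h ih =>
    refine VASS.Run.cons ht ?_ ih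
    intro i
    have := hv i
    simp only [Pi.add_apply, Nat.cast_add]
    omega

@[simp] theorem up_up (c : V.Cf) (δ ε : Fin d → ℕ) : up (up c δ) ε = up c (δ + ε) := by
  simp [up, add_assoc]

@[simp] theorem up_zero (c : V.Cf) : up c 0 = c := by simp [up]

/-- `c ⊑ c'`. -/
theorem exists_up {c c' : V.Cf} (h1 : c.1 = c'.1) (h2 : c.2 ≤ c'.2) : ∃ δ, c' = up c δ := by
  refine ⟨c'.2 - c.2, ?_⟩
  refine Prod.ext h1.symm ?_
  funext i
  have h3 : c.2 i ≤ c'.2 i := h2 i
  change c'.2 i = c.2 i + (c'.2 i - c.2 i)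
  omega

/-- Powers of a list. -/
def pw {α : Type} (u : List α) (n : ℕ) : List α := (List.replicate n u).flatten

@[simp] theorem pw_zero {α : Type} (u : List α) : pw u 0 = [] := rfl
theorem pw_succ {α : Type} (u : List α) (n : ℕ) : pw u (n + 1) = u ++ pw u n := by
  simp [pw, List.replicate_succ]
theorem pw_length {α : Type} (u : List α) (n : ℕ) : (pw u n).length = n * u.length := by
  induction n with
  | zero => simp
  | succ n ih => rw [pw_succ, List.length_append, ih]; ring

theorem mem_pw {α : Type} {u : List α} {n : ℕ} {x : α} (h : x ∈ pw u n) : x ∈ u := by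
  induction n with
  | zero => simp at h
  | succ n ih =>
    rw [pw_succ] at h
    rcases List.mem_append.mp h with h | h
    · exact h
    · exact ih h

theorem run_pw {c : V.Cf} {z : List V.Tr} {δ : Fin d → ℕ} (h : V.Run c z (up c δ)) (n : ℕ) :
    V.Run c (pw z n) (up c (n • δ)) := by
  induction n with
  | zero => simpa using VASS.Run.nil c
  | succ n ih =>
    rw [pw_succ]
    refine run_append h ?_
    have := run_up ih δ
    rw [up_up] at this
    rw [succ_nsmul]; exact this

/-- A run with a nonnegative cycle. -/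
def HasCyc (V : VASS A d) (c : V.Cf) (ts : List V.Tr) : Prop :=
  ∃ p z r c1 δ, ts = p ++ z ++ r ∧ z ≠ [] ∧ V.Run c p c1 ∧ V.Run c1 z (up c1 δ)

/-- A run without nonnegative cycles. -/
def NB (V : VASS A d) (c : V.Cf) (ts : List V.Tr) : Prop :=
  (∃ c', V.Run c ts c') ∧ ¬ HasCyc V c ts

theorem NB_left {c : V.Cf} {s t : List V.Tr} (h : NB V c (s ++ t)) : NB V c s := by
  obtain ⟨⟨c', h1⟩, h2⟩ := h
  obtain ⟨c'', h3, -⟩ := run_split h1
  refine ⟨⟨c'', h3⟩, ?_⟩
  rintro ⟨p, z, r, c1, δ, e, hz, r1, r2⟩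
  exact h2 ⟨p, z, r ++ t, c1, δ, by rw [e]; simp, hz, r1, r2⟩

theorem run_mem {c c' : V.Cf} {s : List V.Tr} (h : V.Run c s c') : ∀ t ∈ s, t ∈ V.T := by
  induction h with
  | nil c => simp
  | cons ht hv h ih =>
    intro t ht'
    rcases List.mem_cons.mp ht' with rfl | h'
    · exact ht
    · exact ih t h'

/-- Extendability by arbitrarily long runs without nonnegative cycles. -/
def Ext (V : VASS A d) (c : V.Cf) (h : List V.Tr) : Prop :=
  ∀ l : ℕ, ∃ ts : List V.Tr, ts.length = l ∧ NB V c (h ++ ts)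

theorem ext_succ {c : V.Cf} {h : List V.Tr} (hE : Ext V c h) : ∃ t, Ext V c (h ++ [t]) := by
  by_contra hcon
  push Not at hcon
  have hb : ∀ t, ∃ l : ℕ, ∀ ts : List V.Tr, ts.length = l → ¬ NB V c (h ++ [t] ++ ts) := by
    intro t
    have := hcon t
    unfold Ext at this
    push Not at this
    exact this
  choose l hl using hb
  obtain ⟨b, hb⟩ : ∃ b, ∀ t ∈ V.T, l t ≤ b := by
    obtain ⟨b, hb⟩ := (V.finT.image l).bddAbove
    exact ⟨b, fun t ht => hb ⟨t, ht, rfl⟩⟩
  obtain ⟨ts, hlen, hNB⟩ := hE (b + 1)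
  cases ts with
  | nil => simp at hlen
  | cons t ts =>
    have htT : t ∈ V.T := by
      obtain ⟨c', hr⟩ := hNB.1
      exact run_mem hr t (by simp)
    have hle := hb t htT
    have hlen' : ts.length = b := by simpa using hlen
    refine hl t (ts.take (l t)) (by rw [List.length_take]; omega) ?_
    refine NB_left (t := ts.drop (l t)) ?_
    have : h ++ [t] ++ List.take (l t) ts ++ List.drop (l t) ts = h ++ t :: ts := by simp
    rw [this]; exact hNB

theorem wqo_cf (V : VASS A d) (f : ℕ → V.Cf) :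
    ∃ m n, m < n ∧ (f m).1 = (f n).1 ∧ (f m).2 ≤ (f n).2 := by
  have hQ : Finite V.Q := V.finQ
  have h1 : WellQuasiOrdered (fun a b : V.Q => a = b) := Finite.wellQuasiOrdered _
  have h2 : WellQuasiOrdered (fun a b : Fin d → ℕ => a ≤ b) := wellQuasiOrdered_le
  obtain ⟨m, n, hmn, h⟩ := (h1.prod h2) f
  exact ⟨m, n, hmn, h.1, h.2⟩

theorem not_ext (V : VASS A d) (c : V.Cf) : ¬ Ext V c [] := by
  intro hE
  -- an infinite chain of extendable runs
  have hs : ∀ h : {h : List V.Tr // Ext V c h}, ∃ t, Ext V c (h.1 ++ [t]) :=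
    fun h => ext_succ h.2
  choose nx hnx using hs
  let H : ℕ → {h : List V.Tr // Ext V c h} :=
    fun n => Nat.rec ⟨[], hE⟩ (fun _ h => ⟨h.1 ++ [nx h], hnx h⟩) n
  have hH : ∀ n, (H (n + 1)).1 = (H n).1 ++ [nx (H n)] := fun n => rfl
  have hNB : ∀ n, NB V c (H n).1 := by
    intro n
    obtain ⟨ts, hts, hNB⟩ := (H n).2 0
    have : ts = [] := List.length_eq_zero_iff.mp hts
    subst this
    simpa using hNB
  have hpre : ∀ m k, ∃ z, (H (m + k)).1 = (H m).1 ++ z ∧ z.length = k := by
    intro m k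
    induction k with
    | zero => exact ⟨[], by simp, rfl⟩
    | succ k ih =>
      obtain ⟨z, hz, hl⟩ := ih
      exact ⟨z ++ [nx (H (m + k))], by rw [← add_assoc, hH, hz]; simp, by simp [hl]⟩
  have hrun : ∀ n, ∃ c', V.Run c (H n).1 c' := fun n => (hNB n).1
  choose f hf using hrun
  obtain ⟨m, n, hmn, h1, h2⟩ := wqo_cf V f
  obtain ⟨δ, hδ⟩ := exists_up h1 h2
  obtain ⟨z, hz, hl⟩ := hpre m (n - m)
  have hnm : m + (n - m) = n := by omega
  rw [hnm] at hz
  have hrn := hf n
  rw [hz] at hrn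
  obtain ⟨c', r1, r2⟩ := run_split hrn
  have hc' : c' = f m := run_det r1 (hf m)
  subst hc'
  apply (hNB n).2
  refine ⟨(H m).1, z, [], f m, δ, by rw [hz]; simp, ?_, r1, ?_⟩
  · intro hz0
    rw [hz0] at hl; simp at hl; omega
  · rw [← hδ]; exact r2

/-- The norm of a configuration. -/
def nrm (c : V.Cf) : ℕ := ∑ i, c.2 i

/-- The uniform bound: long runs from small configurations have nonnegative cycles. -/
theorem uniform (V : VASS A d) (B : ℕ) : ∃ l : ℕ, ∀ (c : V.Cf) (ts : List V.Tr) (c' : V.Cf),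
    nrm c ≤ B → V.Run c ts c' → l ≤ ts.length → HasCyc V c ts := by
  have hQ : Finite V.Q := V.finQ
  have hfin : {c : V.Cf | nrm c ≤ B}.Finite := by
    have h1 : {c : V.Cf | nrm c ≤ B} ⊆ (Set.univ : Set V.Q) ×ˢ (Set.Icc 0 (fun _ => B)) := by
      intro c hc
      refine ⟨Set.mem_univ _, ?_, ?_⟩
      · exact fun i => Nat.zero_le _
      · intro i
        exact le_trans (Finset.single_le_sum (f := fun i => c.2 i) (fun _ _ => Nat.zero_le _)
          (Finset.mem_univ i)) hc
    exact (Set.finite_univ.prod (Set.finite_Icc _ _)).subset h1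
  have hl : ∀ c : V.Cf, ∃ l : ℕ, ∀ ts : List V.Tr, ts.length = l → ¬ NB V c ts := by
    intro c
    have := not_ext V c
    unfold Ext at this
    push Not at this
    simpa using this
  choose l hl using hl
  obtain ⟨b, hb⟩ := (hfin.image l).bddAbove
  refine ⟨b, fun c ts c' hc hr hlen => ?_⟩
  have hlc : l c ≤ b := hb ⟨c, hc, rfl⟩
  by_contra hcon
  have hNB : NB V c ts := ⟨⟨c', hr⟩, hcon⟩
  have h1 : ts = ts.take (l c) ++ ts.drop (l c) := by simp
  rw [h1] at hNB
  exact hl c _ (by rw [List.length_take]; omega) (NB_left hNB)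

theorem growth (V : VASS A d) : ∃ M : ℕ, ∀ (c : V.Cf) (ts : List V.Tr) (c' : V.Cf),
    V.Run c ts c' → nrm c' ≤ nrm c + M * ts.length := by
  obtain ⟨b, hb⟩ := (V.finT.image (fun t => ∑ i, (t.2.2.1 i).toNat)).bddAbove
  refine ⟨b, fun c ts c' h => ?_⟩
  induction h with
  | nil c => simp
  | cons ht hv h ih =>
    rename_i q q' a u v v' ts c
    have h1 : ∑ i, (u i).toNat ≤ b := hb ⟨_, ht, rfl⟩
    have h2 : nrm ((q', v') : V.Cf) ≤ nrm ((q, v) : V.Cf) + ∑ i, (u i).toNat := by
      unfold nrm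
      rw [← Finset.sum_add_distrib]
      apply Finset.sum_le_sum
      intro i _
      have := hv i
      have h3 := Int.self_le_toNat (u i)
      simp only
      omega
    rw [List.length_cons]
    have : b * (ts.length + 1) = b * ts.length + b := by ring
    omega

end Pool.Agent.V11232.VA
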