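import Pool.Agent.V11232.VA.Basic

namespace Pool.Agent.V11232.VA

/-- A block `a^n b^m c`. -/
def blk (n m : ℕ) : List (Fin 4) := List.replicate n 0 ++ List.replicate m 1 ++ [2]

/-- The blocks number `l, ..., l + k - 1`. -/
def BW (n m : ℕ → ℕ) : ℕ → ℕ → List (Fin 4)
  | _, 0 => []
  | l, k + 1 => blk (n l) (m l) ++ BW n m (l + 1) k

/-- The test words. -/
def WW (n m : ℕ → ℕ) (K : ℕ) : List (Fin 4) := 3 :: BW n m 0 K

variable {d : ℕ} {V : VASS (Fin 4) d}

theorem lab_append (s t : List V.Tr) : lab (s ++ t) = lab s ++ lab t := by simp [lab]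

theorem lab_split {ts : List V.Tr} {u v : List (Fin 4)} (h : lab ts = u ++ v) :
    ∃ s t, ts = s ++ t ∧ lab s = u ∧ lab t = v := by
  obtain ⟨s, t, h1, h2, h3⟩ := List.map_eq_append_iff.mp h
  exact ⟨s, t, h1, h2, h3⟩

theorem lab_pw (z : List V.Tr) (n : ℕ) : lab (pw z n) = pw (lab z) n := by
  induction n with
  | zero => rfl
  | succ n ih => rw [pw_succ, lab_append, ih, pw_succ]

theorem pw_replicate (x : Fin 4) (a n : ℕ) :
    pw (List.replicate a x) n = List.replicate (a * n) x := by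
  induction n with
  | zero => simp
  | succ n ih => rw [pw_succ, ih, ← List.replicate_add]; congr 1; ring

theorem HasCyc_up {c : V.Cf} {ts : List V.Tr} (h : HasCyc V c ts) (ε : Fin d → ℕ) :
    HasCyc V (up c ε) ts := by
  obtain ⟨p, z, r, c1, δ, e, hz, r1, r2⟩ := h
  refine ⟨p, z, r, up c1 ε, δ, e, hz, run_up r1 ε, ?_⟩
  have := run_up r2 ε
  rw [up_up] at this ⊢
  rw [add_comm ε δ]; exact this

/-- A run over a block `a^N b^N c` whose `b`-part contains a nonnegative cycle. -/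
def BPump (V : VASS (Fin 4) d) (N : ℕ) (c : V.Cf) (ts : List V.Tr) : Prop :=
  ∃ α β γ c1, ts = α ++ β ++ γ ∧ lab α = List.replicate N 0 ∧ lab β = List.replicate N 1 ∧
    lab γ = [2] ∧ V.Run c α c1 ∧ HasCyc V c1 β

theorem BPump_up {N : ℕ} {c : V.Cf} {ts : List V.Tr} (h : BPump V N c ts) (ε : Fin d → ℕ) :
    BPump V N (up c ε) ts := by
  obtain ⟨α, β, γ, c1, e, h1, h2, h3, r, hc⟩ := h
  exact ⟨α, β, γ, up c1 ε, e, h1, h2, h3, run_up r ε, HasCyc_up hc ε⟩

theorem eq_replicate_of {x : Fin 4} {w : List (Fin 4)} (h : ∀ y ∈ w, y = x) :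
    w = List.replicate w.length x := List.eq_replicate_iff.mpr ⟨rfl, h⟩

/-- Pumping a cycle inside of a homogeneous part. -/
theorem hom_pump {c c' : V.Cf} {α : List V.Tr} {x : Fin 4} {s : ℕ}
    (hl : lab α = List.replicate s x) (hr : V.Run c α c') (hc : HasCyc V c α) (t : ℕ) :
    ∃ α' ε, lab α' = List.replicate (s + s.factorial * t) x ∧ V.Run c α' (up c' ε) := by
  obtain ⟨p, z, r, c1, δ, e, hz, r1, r2⟩ := hc
  have hzl : 1 ≤ z.length := List.length_pos_iff.mpr hz
  have hlen : p.length + z.length + r.length = s := by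
    have := congrArg List.length hl
    rw [e] at this
    simpa [lab, add_assoc] using this
  obtain ⟨f, hf⟩ : z.length ∣ s.factorial := Nat.dvd_factorial hzl (by omega)
  have hr' := hr
  rw [e] at hr'
  obtain ⟨c2, r3, r4⟩ := run_split hr'
  have hc2 : c2 = up c1 δ := run_det r3 (run_append r1 r2)
  subst hc2
  refine ⟨p ++ pw z (f * t + 1) ++ r, (f * t) • δ, ?_, ?_⟩
  · have h0 : ∀ y ∈ lab α, y = x := by rw [hl]; exact fun y hy => List.eq_of_mem_replicate hy
    have h1 : ∀ y ∈ lab (p ++ pw z (f * t + 1) ++ r), y = x := by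
      intro y hy
      apply h0
      rw [e]
      simp only [lab_append, List.mem_append] at hy ⊢
      rcases hy with (hy | hy) | hy
      · exact Or.inl (Or.inl hy)
      · rw [lab_pw] at hy; exact Or.inl (Or.inr (mem_pw hy))
      · exact Or.inr hy
    have h2 := eq_replicate_of h1
    rw [h2]
    congr 1
    have : (lab (p ++ pw z (f * t + 1) ++ r)).length = p.length + (f * t + 1) * z.length + r.length := by
      simp [lab, pw_length]; ring
    rw [this, hf, ← hlen]; ring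
  · have h3 := run_pw r2 (f * t + 1)
    refine run_append (run_append r1 h3) ?_
    have := run_up r4 ((f * t) • δ)
    rw [up_up] at this
    rw [succ_nsmul, add_comm]; exact this

/-- Sizes. -/
structure Sizes (V : VASS (Fin 4) d) where
  M : ℕ
  B : ℕ → ℕ
  s : ℕ → ℕ
  N : ℕ → ℕ
  grow : ∀ (c : V.Cf) (ts : List V.Tr) (c' : V.Cf), V.Run c ts c' → nrm c' ≤ nrm c + M * ts.length
  B0 : nrm ((V.q0, V.c0) : V.Cf) + M ≤ B 0
  hs : ∀ l (c : V.Cf) (ts : List V.Tr) (c' : V.Cf),
    nrm c ≤ B l → V.Run c ts c' → s l ≤ ts.length → HasCyc V c ts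
  hN : ∀ l (c : V.Cf) (ts : List V.Tr) (c' : V.Cf),
    nrm c ≤ B l + M * s l → V.Run c ts c' → N l ≤ ts.length → HasCyc V c ts
  hsN : ∀ l, ∃ t, N l = s l + (s l).factorial * t
  hB : ∀ l, B (l + 1) = B l + M * (2 * N l + 1)

theorem sizes_exist (V : VASS (Fin 4) d) : Nonempty (Sizes V) := by
  obtain ⟨M, hM⟩ := growth V
  choose L hL using uniform V
  let sf : ℕ → ℕ := fun b => L b
  let Nf : ℕ → ℕ := fun b => sf b + (sf b).factorial * (L (b + M * sf b))
  let B : ℕ → ℕ := fun l => Nat.rec (nrm ((V.q0, V.c0) : V.Cf) + M)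
    (fun _ b => b + M * (2 * Nf b + 1)) l
  refine ⟨⟨M, B, fun l => sf (B l), fun l => Nf (B l), hM, le_rfl, ?_, ?_, ?_, fun l => rfl⟩⟩
  · intro l c ts c' h1 h2 h3
    exact hL _ c ts c' h1 h2 h3
  · intro l c ts c' h1 h2 h3
    refine hL _ c ts c' h1 h2 (le_trans ?_ h3)
    have : 1 ≤ (sf (B l)).factorial := Nat.factorial_pos _
    change L (B l + M * sf (B l)) ≤ sf (B l) + (sf (B l)).factorial * (L (B l + M * sf (B l)))
    nlinarith
  · intro l
    exact ⟨_, rfl⟩

/-- Pumping the `a`-part of a block. -/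
theorem blk_a (S : Sizes V) (l : ℕ) {c c' : V.Cf} {ts : List V.Tr} (hc : nrm c ≤ S.B l)
    (hr : V.Run c ts c') (hl : lab ts = blk (S.s l) (S.N l)) :
    ∃ ts' ε, lab ts' = blk (S.N l) (S.N l) ∧ V.Run c ts' (up c' ε) ∧ BPump V (S.N l) c ts' := by
  obtain ⟨αβ, γ, e1, h1, h2⟩ := lab_split hl
  obtain ⟨α, β, e2, h3, h4⟩ := lab_split h1
  subst e1 e2
  obtain ⟨c2, r12, r3⟩ := run_split hr
  obtain ⟨c1, r1, r2⟩ := run_split r12
  have hαl : α.length = S.s l := by
    have := congrArg List.length h3; simpa [lab] using this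
  have hβl : β.length = S.N l := by
    have := congrArg List.length h4; simpa [lab] using this
  have hcyc := S.hs l c α c1 hc r1 (by omega)
  obtain ⟨t, ht⟩ := S.hsN l
  obtain ⟨α', ε, hα', rα'⟩ := hom_pump h3 r1 hcyc t
  have hc1 : nrm c1 ≤ S.B l + S.M * S.s l := by
    have := S.grow c α c1 r1
    rw [hαl] at this; omega
  have hcyc2 := S.hN l c1 β c2 hc1 r2 (by omega)
  refine ⟨α' ++ β ++ γ, ε, ?_, ?_, ?_⟩
  · rw [lab_append, lab_append, hα', h4, h2, blk, ← ht]
  · exact run_append (run_append rα' (run_up r2 ε)) (run_up r3 ε)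
  · exact ⟨α', β, γ, up c1 ε, rfl, by rw [hα', ht], h4, h2, rα', HasCyc_up hcyc2 ε⟩

/-- Runs over blocks, with nonnegative cycles in the `b`-parts of the flagged blocks. -/
inductive BR (V : VASS (Fin 4) d) (N : ℕ → ℕ) (P : ℕ → Prop) :
    ℕ → ℕ → V.Cf → List V.Tr → V.Cf → Prop
  | nil (l : ℕ) (c : V.Cf) : BR V N P l 0 c [] c
  | cons {l k : ℕ} {c c1 c' : V.Cf} {ts1 ts2 : List V.Tr} :
      V.Run c ts1 c1 → lab ts1 = blk (N l) (N l) → (P l → BPump V (N l) c ts1) →
      BR V N P (l + 1) k c1 ts2 c' → BR V N P l (k + 1) c (ts1 ++ ts2) c'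

theorem BR_run {N : ℕ → ℕ} {P : ℕ → Prop} {l k : ℕ} {c c' : V.Cf} {ts : List V.Tr}
    (h : BR V N P l k c ts c') : V.Run c ts c' ∧ lab ts = BW N N l k := by
  induction h with
  | nil l c => exact ⟨VASS.Run.nil c, rfl⟩
  | cons h1 h2 h3 h4 ih =>
    exact ⟨run_append h1 ih.1, by rw [lab_append, h2, ih.2]; rfl⟩

theorem BR_combine {N : ℕ → ℕ} {P P' R : ℕ → Prop} (hR : ∀ l, R l → P l ∨ P' l) {l k : ℕ}
    {c c' c'' : V.Cf} {ts : List V.Tr} (h : BR V N P l k c ts c') (h' : BR V N P' l k c ts c'') :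
    BR V N R l k c ts c' := by
  induction h generalizing c'' with
  | nil l c => exact BR.nil l c
  | cons h1 h2 h3 h4 ih =>
    rename_i l k c c1 c' ts1 ts2
    generalize hts : ts1 ++ ts2 = ts at h'
    cases h' with
    | cons g1 g2 g3 g4 =>
      rename_i c1' ts1' ts2'
      have hlen : ts1.length = ts1'.length := by
        have e1 := congrArg List.length h2
        have e2 := congrArg List.length g2
        simp only [lab, List.length_map] at e1 e2
        omega
      obtain ⟨e1, e2⟩ := List.append_inj hts hlen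
      subst e1 e2
      have := run_det h1 g1
      subst this
      refine BR.cons h1 h2 ?_ (ih g4)
      intro hRl
      rcases hR _ hRl with h | h
      · exact h3 h
      · exact g3 h

open Classical in
/-- The sizes after pumping the flagged blocks. -/
noncomputable def big (N : ℕ → ℕ) (R : ℕ → Prop) (l : ℕ) : ℕ :=
  if R l then N l + (N l).factorial else N l

theorem BR_pump {N : ℕ → ℕ} {R : ℕ → Prop} {l k : ℕ} {c c' : V.Cf} {ts : List V.Tr}
    (h : BR V N R l k c ts c') (ε : Fin d → ℕ) :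
    ∃ ts' ε', V.Run (up c ε) ts' (up c' ε') ∧ lab ts' = BW N (big N R) l k := by
  induction h generalizing ε with
  | nil l c => exact ⟨[], ε, VASS.Run.nil _, rfl⟩
  | cons h1 h2 h3 h4 ih =>
    rename_i l k c c1 c' ts1 ts2
    obtain ⟨ts', ε', hr', hl'⟩ : ∃ ts' ε', V.Run (up c ε) ts' (up c1 ε') ∧
        lab ts' = blk (N l) (big N R l) := by
      by_cases hR : R l
      · obtain ⟨α, β, γ, c4, e, g1, g2, g3, r1, hcy⟩ := h3 hR
        subst e
        obtain ⟨c6, r12, r3⟩ := run_split h1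
        obtain ⟨c5, r1', r2⟩ := run_split r12
        have := run_det r1 r1'
        subst this
        obtain ⟨β', ε', hβ', rβ'⟩ := hom_pump g2 r2 hcy 1
        refine ⟨α ++ β' ++ γ, ε' + ε, ?_, ?_⟩
        · refine run_append (run_append (run_up r1 ε) (run_up rβ' ε)) ?_
          rw [up_up]; exact run_up r3 _
        · rw [lab_append, lab_append, g1, hβ', g3, blk, big, if_pos hR, mul_one]
      · exact ⟨ts1, ε, run_up h1 ε, by rw [h2, big, if_neg hR]⟩
    obtain ⟨ts'', ε'', hr'', hl''⟩ := ih ε'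
    exact ⟨ts' ++ ts'', ε'', run_append hr' hr'', by rw [lab_append, hl', hl'']; rfl⟩

open Classical in
/-- The view lemma. -/
theorem view (S : Sizes V) (P : ℕ → Prop) (n : ℕ → ℕ)
    (hn : ∀ l, n l = if P l then S.s l else S.N l) (k : ℕ) :
    ∀ (l : ℕ) (c : V.Cf) (ts : List V.Tr) (c' : V.Cf), nrm c ≤ S.B l → V.Run c ts c' →
      lab ts = BW n S.N l k → ∀ ε, ∃ ts' ε', BR V S.N P l k (up c ε) ts' (up c' ε') := by
  induction k with
  | zero =>
    intro l c ts c' _ hr hl ε
    have : ts = [] := by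
      simpa [BW, lab] using hl
    subst this
    cases hr
    exact ⟨[], ε, BR.nil _ _⟩
  | succ k ih =>
    intro l c ts c' hc hr hl ε
    obtain ⟨ts1, ts2, e, h1, h2⟩ := lab_split hl
    subst e
    obtain ⟨c1, r1, r2⟩ := run_split hr
    have hsN : S.s l ≤ S.N l := by
      obtain ⟨t, ht⟩ := S.hsN l; omega
    have hnl : n l ≤ S.N l := by
      rw [hn]; split_ifs
      · exact hsN
      · exact le_rfl
    have hc1 : nrm c1 ≤ S.B (l + 1) := by
      have g := S.grow c ts1 c1 r1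
      have hlen : ts1.length = n l + S.N l + 1 := by
        have := congrArg List.length h1
        simp [lab, blk] at this
        omega
      have g2 : S.M * ts1.length ≤ S.M * (2 * S.N l + 1) :=
        Nat.mul_le_mul_left _ (by omega)
      rw [S.hB]; omega
    obtain ⟨ts1', ε1, hl1, hr1, hP1⟩ : ∃ ts' ε', lab ts' = blk (S.N l) (S.N l) ∧
        V.Run c ts' (up c1 ε') ∧ (P l → BPump V (S.N l) c ts') := by
      by_cases hP : P l
      · have : n l = S.s l := by rw [hn, if_pos hP]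
        rw [this] at h1
        obtain ⟨ts', ε', g1, g2, g3⟩ := blk_a S l hc r1 h1
        exact ⟨ts', ε', g1, g2, fun _ => g3⟩
      · have : n l = S.N l := by rw [hn, if_neg hP]
        rw [this] at h1
        exact ⟨ts1, 0, h1, by simpa using r1, fun h => absurd h hP⟩
    obtain ⟨ts2', ε2, hBR⟩ := ih (l + 1) c1 ts2 c' hc1 r2 h2 (ε1 + ε)
    refine ⟨ts1' ++ ts2', ε2, BR.cons ?_ hl1 (fun h => BPump_up (hP1 h) ε) hBR⟩
    have := run_up hr1 ε
    rw [up_up] at this; exact this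

/-- The lower bound on the degree of ambiguity. -/
theorem lower (V : VASS (Fin 4) d) (k1 k2 : ℕ)
    (hL : ∀ n m : ℕ → ℕ, WW n m (k1 + k2) ∈ V.lang ↔
      (∃ i < k1, m i ≤ n i) ∧ (∃ j, k1 ≤ j ∧ j < k1 + k2 ∧ m j ≤ n j)) (K : ℕ)
    (hA : V.Ambig K) : k1 * k2 ≤ K := by
  classical
  obtain ⟨S⟩ := sizes_exist V
  -- the flagged blocks
  let P : Fin k1 × Fin k2 → ℕ → Prop := fun ij l => l ≠ ij.1 ∧ l ≠ k1 + ij.2
  have key : ∀ ij : Fin k1 × Fin k2, ∃ ts : List V.Tr, ∃ t ts' c1 c', ts = t :: ts' ∧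
      lab [t] = [3] ∧ V.Run (V.q0, V.c0) [t] c1 ∧ BR V S.N (P ij) 0 (k1 + k2) c1 ts' c' ∧
      c'.1 ∈ V.F := by
    intro ij
    let n : ℕ → ℕ := fun l => if P ij l then S.s l else S.N l
    have hmem : WW n S.N (k1 + k2) ∈ V.lang := by
      rw [hL]
      refine ⟨⟨ij.1, ij.1.2, ?_⟩, ⟨k1 + ij.2, by omega, by omega, ?_⟩⟩
      · have : ¬ P ij ij.1 := fun h => h.1 rfl
        simp [n, this]
      · have : ¬ P ij (k1 + ij.2) := fun h => h.2 rfl
        simp [n, this]
    obtain ⟨ts, q, v, hr, hq, hl⟩ := hmem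
    obtain ⟨t1, ts', e, h1, h2⟩ := lab_split (u := [3]) (v := BW n S.N 0 (k1 + k2)) hl
    obtain ⟨t, rfl⟩ : ∃ t, t1 = [t] := by
      have : t1.length = 1 := by
        have := congrArg List.length h1
        simpa [lab] using this
      exact List.length_eq_one_iff.mp this
    subst e
    obtain ⟨c1, r1, r2⟩ := run_split hr
    have hc1 : nrm c1 ≤ S.B 0 := by
      have := S.grow _ _ _ r1
      have h0 := S.B0
      simp at this; omega
    obtain ⟨ts'', ε', hBR⟩ := view S (P ij) n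
      (fun l => by by_cases h : P ij l <;> simp [n, h]) _ 0 c1 ts' (q, v) hc1 r2 h2 0
    rw [up_zero] at hBR
    exact ⟨t :: ts'', t, ts'', c1, up (q, v) ε', rfl, h1, r1, hBR, hq⟩
  choose ρ hρ using key
  have hacc : ∀ ij, ρ ij ∈ V.Acc (WW S.N S.N (k1 + k2)) := by
    intro ij
    obtain ⟨t, ts', c1, c', e, h1, r1, hBR, hF⟩ := hρ ij
    obtain ⟨g1, g2⟩ := BR_run hBR
    refine ⟨c'.1, c'.2, ?_, hF, ?_⟩
    · rw [e]; exact run_append r1 g1
    · rw [e]
      have : lab (t :: ts') = lab [t] ++ lab ts' := lab_append [t] ts'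
      rw [this, h1, g2]; rfl
  -- pumping
  have hpump : ∀ (R : ℕ → Prop) (ij ij' : Fin k1 × Fin k2), ρ ij = ρ ij' →
      (∀ l, R l → P ij l ∨ P ij' l) → WW S.N (big S.N R) (k1 + k2) ∈ V.lang := by
    intro R ij ij' hρρ hR
    obtain ⟨t, ts', c1, c', e, h1, r1, hBR, hF⟩ := hρ ij
    obtain ⟨t2, ts2', c2, c2', e2, -, r2, hBR2, -⟩ := hρ ij'
    rw [e, e2] at hρρ
    obtain ⟨g1, g2⟩ := List.cons.inj hρρ
    subst g1 g2
    have := run_det r1 r2
    subst this
    have hB := BR_combine hR hBR hBR2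
    obtain ⟨ts3, ε3, r3, hl3⟩ := BR_pump hB 0
    rw [up_zero] at r3
    refine ⟨[t] ++ ts3, (up c' ε3).1, (up c' ε3).2, run_append r1 r3, hF, ?_⟩
    rw [lab_append, h1, hl3]; rfl
  have hbig : ∀ (R : ℕ → Prop) l, R l → ¬ big S.N R l ≤ S.N l := by
    intro R l hR
    have : 0 < (S.N l).factorial := Nat.factorial_pos _
    rw [big, if_pos hR]; omega
  have hinj : Function.Injective ρ := by
    intro ij ij' h
    by_contra hne
    by_cases h1 : ij.1 = ij'.1
    · have h2 : ij.2 ≠ ij'.2 := fun h2 => hne (Prod.ext h1 h2)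
      have h2' : (ij.2 : ℕ) ≠ ij'.2 := fun h => h2 (Fin.ext h)
      have := hpump (fun l => k1 ≤ l) ij ij' h (by
        intro l hl
        by_cases h3 : l = k1 + ij.2
        · right
          refine ⟨?_, ?_⟩
          · have := ij'.1.2; omega
          · omega
        · left
          refine ⟨?_, h3⟩
          have := ij.1.2; omega)
      rw [hL] at this
      obtain ⟨-, j, hj1, -, hj⟩ := this
      exact hbig _ j hj1 hj
    · have h1' : (ij.1 : ℕ) ≠ ij'.1 := fun h => h1 (Fin.ext h)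
      have := hpump (fun l => l < k1) ij ij' h (by
        intro l hl
        by_cases h3 : l = ij.1
        · right
          refine ⟨by omega, by omega⟩
        · left
          exact ⟨h3, by omega⟩)
      rw [hL] at this
      obtain ⟨⟨i, hi1, hi⟩, -⟩ := this
      exact hbig _ i hi1 hi
  have h1 : (Set.range ρ).encard ≤ (V.Acc (WW S.N S.N (k1 + k2))).encard := by
    apply Set.encard_le_encard
    rintro _ ⟨ij, rfl⟩
    exact hacc ij
  have h2 := h1.trans (hA _)
  rw [← Set.image_univ, hinj.injOn.encard_image, Set.encard_univ] at h2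
  have h3 : ((k1 * k2 : ℕ) : ℕ∞) ≤ (K : ℕ∞) := by simpa using h2
  exact_mod_cast h3

end Pool.Agent.V11232.VA
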