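import Pool.Agent.V11232.VA.Lower

namespace Pool.Agent.V11232.VA

variable {k K : ℕ}

/-- Next block number. -/
def nxt (K : ℕ) (t : Fin (K + 1)) (x : Fin 4) : Fin (K + 1) :=
  if x = 2 then (if h : (t : ℕ) + 1 < K + 1 then ⟨t + 1, h⟩ else t) else t

/-- The effect of a letter. -/
def eff (ι : Fin k → ℕ) (i : Fin k) (t : Fin (K + 1)) (x : Fin 4) : ℤ :=
  if (t : ℕ) = ι i then (if x = 0 then 1 else if x = 1 then -1 else 0) else 0

/-- The VASS that guesses `i` with the first letter and then checks the block number `ι i`. -/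
def wit (k K : ℕ) (ι : Fin k → ℕ) : VASS (Fin 4) 1 where
  Q := Option (Fin k × Fin (K + 1))
  finQ := inferInstance
  T := Set.range (fun i : Fin k => (none, 3, fun _ => 0, some (i, 0))) ∪
    Set.range (fun p : Fin k × Fin (K + 1) × Fin 4 =>
      (some (p.1, p.2.1), p.2.2, fun _ => eff ι p.1 p.2.1 p.2.2, some (p.1, nxt K p.2.1 p.2.2)))
  finT := (Set.finite_range _).union (Set.finite_range _)
  q0 := none
  c0 := fun _ => 0
  F := {q | q ≠ none}

/-- The canonical run. -/
def can (ι : Fin k → ℕ) (i : Fin k) : Fin (K + 1) → List (Fin 4) → List (wit k K ι).Tr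
  | _, [] => []
  | t, x :: w => (some (i, t), x, fun _ => eff ι i t x, some (i, nxt K t x)) ::
      can ι i (nxt K t x) w

theorem can_of_run (ι : Fin k → ℕ) (i : Fin k) (w : List (Fin 4)) :
    ∀ (t : Fin (K + 1)) (v : Fin 1 → ℕ) (ts : List (wit k K ι).Tr) (c : (wit k K ι).Cf),
    (wit k K ι).Run (some (i, t), v) ts c → lab ts = w → ts = can ι i t w := by
  induction w with
  | nil =>
    intro t v ts c _ hl
    simpa [lab, can] using hl
  | cons x w ih =>
    intro t v ts c hr hl
    cases hr with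
    | nil => simp [lab] at hl
    | cons ht hv h =>
      rename_i q' a u v' ts
      have hl' : a = x ∧ lab ts = w := by
        simpa [lab] using hl
      obtain ⟨rfl, hl2⟩ := hl'
      rcases ht with ⟨j, hj⟩ | ⟨⟨j, t', y⟩, hj⟩
      · have := congrArg Prod.fst hj
        simp at this
      · have e1 : (some (j, t') : Option (Fin k × Fin (K + 1))) = some (i, t) :=
          congrArg (fun p => p.1) hj
        have e2 : y = a := congrArg (fun p => p.2.1) hj
        have e3 : (fun _ => eff ι j t' y) = u := congrArg (fun p => p.2.2.1) hj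
        have e4 : some (j, nxt K t' y) = q' := congrArg (fun p => p.2.2.2) hj
        have h1' : j = i ∧ t' = t := by simpa using e1
        obtain ⟨rfl, rfl⟩ := h1'
        subst e2 e3 e4
        rw [ih _ _ _ _ h hl2]; rfl

theorem wit_acc (ι : Fin k → ℕ) (w : List (Fin 4)) (ts : List (wit k K ι).Tr)
    (h : ts ∈ (wit k K ι).Acc w) : ∃ i, ts = (none, 3, fun _ => 0, some (i, 0)) ::
      can ι i 0 w.tail := by
  obtain ⟨q, v, hr, hq, hl⟩ := h
  cases hr with
  | nil => exact absurd rfl hq
  | cons ht hv h =>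
    rename_i q' a u v' ts
    rcases ht with ⟨j, hj⟩ | ⟨⟨j, t', y⟩, hj⟩
    · have e2 : (3 : Fin 4) = a := congrArg (fun p => p.2.1) hj
      have e3 : (fun _ => (0 : ℤ)) = u := congrArg (fun p => p.2.2.1) hj
      have e4 : some (j, 0) = q' := congrArg (fun p => p.2.2.2) hj
      subst e2 e3 e4
      have hl' : lab ts = w.tail := by rw [← hl]; rfl
      refine ⟨j, ?_⟩
      rw [← can_of_run ι j w.tail 0 v' ts _ h hl']
      rfl
    · have := congrArg Prod.fst hj
      change some (j, t') = (none : Option (Fin k × Fin (K + 1))) at this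
      simp at this

theorem wit_ambig (ι : Fin k → ℕ) : (wit k K ι).Ambig k := by
  intro w
  have h1 : (wit k K ι).Acc w ⊆ Set.range (fun i : Fin k =>
      ((none, 3, fun _ => 0, some (i, 0)) :: can ι i 0 w.tail : List (wit k K ι).Tr)) := by
    intro ts hts
    obtain ⟨i, hi⟩ := wit_acc ι w ts hts
    exact ⟨i, hi.symm⟩
  refine (Set.encard_le_encard h1).trans ?_
  rw [← Set.image_univ]
  refine (Set.encard_image_le _ _).trans ?_
  simp

theorem step_iff (ι : Fin k → ℕ) (i : Fin k) (t : Fin (K + 1)) (r : ℕ) (x : Fin 4)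
    (w : List (Fin 4)) :
    (∃ c, (wit k K ι).Run (some (i, t), fun _ => r) (can ι i t (x :: w)) c) ↔
      ∃ r' : ℕ, (r' : ℤ) = r + eff ι i t x ∧
        ∃ c, (wit k K ι).Run (some (i, nxt K t x), fun _ => r') (can ι i (nxt K t x) w) c := by
  constructor
  · rintro ⟨c, hr⟩
    cases hr with
    | cons ht hv h =>
      rename_i v'
      refine ⟨v' 0, hv 0, c, ?_⟩
      have : v' = fun _ => v' 0 := by funext j; rw [Subsingleton.elim j 0]
      rw [← this]; exact h
  · rintro ⟨r', hr', c, h⟩
    refine ⟨c, VASS.Run.cons ?_ (fun _ => hr') h⟩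
    exact Or.inr ⟨(i, t, x), rfl⟩

theorem nxt_ne (t : Fin (K + 1)) {x : Fin 4} (hx : x ≠ 2) : nxt K t x = t := by
  simp [nxt, hx]

theorem rep_neutral (ι : Fin k → ℕ) (i : Fin k) (t : Fin (K + 1)) (ht : (t : ℕ) ≠ ι i) (r : ℕ)
    {x : Fin 4} (hx : x ≠ 2) (n : ℕ) (w : List (Fin 4)) :
    (∃ c, (wit k K ι).Run (some (i, t), fun _ => r) (can ι i t (List.replicate n x ++ w)) c) ↔
      ∃ c, (wit k K ι).Run (some (i, t), fun _ => r) (can ι i t w) c := by
  induction n with
  | zero => simp
  | succ n ih =>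
    rw [List.replicate_succ, List.cons_append, step_iff, nxt_ne t hx]
    have : eff ι i t x = 0 := by simp [eff, ht]
    rw [this]
    constructor
    · rintro ⟨r', h1, h2⟩
      have : r' = r := by omega
      subst this
      exact ih.mp h2
    · intro h
      exact ⟨r, by omega, ih.mpr h⟩

theorem rep_zero (ι : Fin k → ℕ) (i : Fin k) (t : Fin (K + 1)) (ht : (t : ℕ) = ι i)
    (n : ℕ) (w : List (Fin 4)) : ∀ r : ℕ,
    (∃ c, (wit k K ι).Run (some (i, t), fun _ => r) (can ι i t (List.replicate n 0 ++ w)) c) ↔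
      ∃ c, (wit k K ι).Run (some (i, t), fun _ => r + n) (can ι i t w) c := by
  induction n with
  | zero => simp
  | succ n ih =>
    intro r
    rw [List.replicate_succ, List.cons_append, step_iff, nxt_ne t (by decide)]
    have : eff ι i t 0 = 1 := by simp [eff, ht]
    rw [this]
    constructor
    · rintro ⟨r', h1, h2⟩
      have : r' = r + 1 := by omega
      subst this
      have := (ih _).mp h2
      have e : r + 1 + n = r + (n + 1) := by ring
      rw [e] at this; exact this
    · intro h
      refine ⟨r + 1, by push_cast; ring, (ih _).mpr ?_⟩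
      have e : r + 1 + n = r + (n + 1) := by ring
      rw [e]; exact h

theorem rep_one (ι : Fin k → ℕ) (i : Fin k) (t : Fin (K + 1)) (ht : (t : ℕ) = ι i)
    (n : ℕ) (w : List (Fin 4)) : ∀ r : ℕ,
    (∃ c, (wit k K ι).Run (some (i, t), fun _ => r) (can ι i t (List.replicate n 1 ++ w)) c) ↔
      n ≤ r ∧ ∃ c, (wit k K ι).Run (some (i, t), fun _ => r - n) (can ι i t w) c := by
  induction n with
  | zero => simp
  | succ n ih =>
    intro r
    rw [List.replicate_succ, List.cons_append, step_iff, nxt_ne t (by decide)]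
    have : eff ι i t 1 = -1 := by simp [eff, ht]
    rw [this]
    constructor
    · rintro ⟨r', h1, h2⟩
      obtain ⟨h3, h4⟩ := (ih _).mp h2
      refine ⟨by omega, ?_⟩
      have e : r - (n + 1) = r' - n := by omega
      rw [e]; exact h4
    · rintro ⟨h1, h2⟩
      refine ⟨r - 1, by omega, (ih _).mpr ⟨by omega, ?_⟩⟩
      have e : r - 1 - n = r - (n + 1) := by omega
      rw [e]; exact h2

theorem step_two (ι : Fin k → ℕ) (i : Fin k) (t : Fin (K + 1)) (r : ℕ) (w : List (Fin 4)) :
    (∃ c, (wit k K ι).Run (some (i, t), fun _ => r) (can ι i t (2 :: w)) c) ↔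
      ∃ c, (wit k K ι).Run (some (i, nxt K t 2), fun _ => r) (can ι i (nxt K t 2) w) c := by
  rw [step_iff]
  have : eff ι i t 2 = 0 := by simp [eff]
  rw [this]
  constructor
  · rintro ⟨r', h1, h2⟩
    have : r' = r := by omega
    subst this; exact h2
  · intro h; exact ⟨r, by omega, h⟩

theorem blocks_iff (ι : Fin k → ℕ) (i : Fin k) (n m : ℕ → ℕ) (j : ℕ) :
    ∀ (l : ℕ) (t : Fin (K + 1)) (r : ℕ), (t : ℕ) = l → l + j ≤ K →
    ((∃ c, (wit k K ι).Run (some (i, t), fun _ => r) (can ι i t (BW n m l j)) c) ↔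
      (l ≤ ι i → ι i < l + j → m (ι i) ≤ r + n (ι i))) := by
  induction j with
  | zero =>
    intro l t r _ _
    constructor
    · intro _ h1 h2; omega
    · intro _; exact ⟨_, VASS.Run.nil _⟩
  | succ j ih =>
    intro l t r ht hl
    have hn : ((nxt K t 2 : Fin (K + 1)) : ℕ) = l + 1 := by
      have : (t : ℕ) + 1 < K + 1 := by omega
      rw [nxt, if_pos rfl, dif_pos this]
      simp [ht]
    have hw : BW n m l (j + 1) = List.replicate (n l) 0 ++ (List.replicate (m l) 1 ++
        (2 :: BW n m (l + 1) j)) := by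
      simp [BW, blk]
    rw [hw]
    by_cases hti : (t : ℕ) = ι i
    · rw [rep_zero ι i t hti, rep_one ι i t hti, step_two, ih (l + 1) _ _ hn (by omega)]
      constructor
      · rintro ⟨h1, -⟩ _ _
        rw [← hti, ht]; exact h1
      · intro h
        have h2 := h (by omega) (by omega)
        rw [← hti, ht] at h2
        exact ⟨h2, fun h3 _ => by omega⟩
    · rw [rep_neutral ι i t hti r (by decide), rep_neutral ι i t hti r (by decide), step_two,
        ih (l + 1) _ _ hn (by omega)]
      constructor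
      · intro h h1 h2
        exact h (by omega) (by omega)
      · intro h h1 h2
        exact h (by omega) (by omega)

theorem lab_can (ι : Fin k → ℕ) (i : Fin k) (w : List (Fin 4)) :
    ∀ t : Fin (K + 1), lab (can ι i t w) = w := by
  induction w with
  | nil => intro t; rfl
  | cons x w ih =>
    intro t
    have : lab (can ι i t (x :: w)) = x :: lab (can ι i (nxt K t x) w) := rfl
    rw [this, ih]

theorem run_state (ι : Fin k → ℕ) (i : Fin k) (w : List (Fin 4)) :
    ∀ (t : Fin (K + 1)) (v : Fin 1 → ℕ) (c : (wit k K ι).Cf),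
    (wit k K ι).Run (some (i, t), v) (can ι i t w) c → c.1 ≠ none := by
  induction w with
  | nil =>
    intro t v c h
    cases h
    simp
  | cons x w ih =>
    intro t v c h
    cases h with
    | cons ht hv h => exact ih _ _ _ h

theorem wit_mem (ι : Fin k → ℕ) (hι : ∀ i, ι i < K) (n m : ℕ → ℕ) :
    WW n m K ∈ (wit k K ι).lang ↔ ∃ i, m (ι i) ≤ n (ι i) := by
  constructor
  · rintro ⟨ts, hts⟩
    obtain ⟨i, hi⟩ := wit_acc ι _ ts hts
    obtain ⟨q, v, hr, -, -⟩ := hts
    subst hi
    refine ⟨i, ?_⟩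
    cases hr with
    | cons ht hv h =>
      rename_i v'
      have hv' : v' = fun _ => 0 := by
        funext j
        have := hv j
        have h0 : (wit k K ι).c0 j = 0 := rfl
        rw [h0] at this
        simpa using this
      subst hv'
      have := (blocks_iff (K := K) ι i n m K 0 0 0 rfl (by omega)).mp ⟨_, h⟩ (by omega)
        (by have := hι i; omega)
      simpa using this
  · rintro ⟨i, hi⟩
    obtain ⟨c, hc⟩ := (blocks_iff (K := K) ι i n m K 0 0 0 rfl (by omega)).mpr
      (fun _ _ => by omega)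
    refine ⟨(none, 3, fun _ => 0, some (i, 0)) :: can ι i 0 (BW n m 0 K), c.1, c.2, ?_, ?_, ?_⟩
    · refine VASS.Run.cons (v' := fun _ => 0) (Or.inl ⟨i, rfl⟩) ?_ hc
      intro j
      change (0 : ℤ) = ((0 : ℕ) : ℤ) + 0
      simp
    · exact run_state ι i _ _ _ _ hc
    · change 3 :: lab (can ι i 0 (BW n m 0 K)) = _
      rw [lab_can]; rfl

end Pool.Agent.V11232.VA
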